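import Pool.Agent.Y882.GX.All
import Pool.Agent.Y854.GM.Win

/-!
# A small prime plus an almost prime at all scales simultaneously

Let `0 < θ ≤ 1` and `ε > 0`. For all even `N ≤ X` with at most `C X ^ (1 - θ + ε)` exceptions and SIMULTANEOUSLY for all real `x`
with `N ^ θ ≤ x ≤ N / 2` there are at least `δ 𝔖(N) x / (log N) ^ 2` primes `p` with `x / 4 < p < x` such that `N - p` has at most
three prime factors; with at most two prime factors if there may be `C X ^ (12 / 11 - θ + ε)` exceptions. In particular the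
least prime `p` with such an `N - p` is less than `N ^ θ`.

Consequence: let `v ≥ 1` be a sequence of exponent of convergence at most `σ` (for `v_n = n ^ a` this is `1 / a`, for
`v_n = b ^ n` it is `0`), and `0 ≤ η < 1`. For all `α > 0` outside a set of small Hausdorff dimension and all but finitely many
`n`, ALL even `N` with `|N - α v_n| ≤ v_n ^ η` have this property, at all scales `x ≥ N ^ θ`.
-/

set_option autoImplicit false

open Finset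

namespace Pool.Agent.Results.MP_bae66e_nt.AllScalesAlmostPrimes

/-- the exponent of convergence of the sequence `v` is at most `σ` -/
def ExpLe (v : ℕ → ℝ) (σ : ℝ) : Prop := ∀ t : ℝ, σ < t → Summable (fun n : ℕ => (v n) ^ (-t))

/-- the variable part of the singular series of the Goldbach problem -/
noncomputable def sing (N : ℕ) : ℝ :=
  ∏ p ∈ N.primeFactors.erase 2, (((p : ℝ) - 1) / ((p : ℝ) - 2))

open Classical in
/-- The number of the primes `p < N` with `x / 4 < p < x` such that `N - p` has at most `r` prime factors (counted with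
multiplicity), all of them at least `N ^ ζ / 2`. -/
noncomputable def inWindow (r : ℕ) (ζ x : ℝ) (N : ℕ) : ℕ :=
  ((range N).filter (fun p : ℕ => p.Prime ∧ x / 4 < p ∧ (p : ℝ) < x ∧
    (N - p).primeFactorsList.length ≤ r ∧
    ∀ q : ℕ, q.Prime → q ∣ (N - p) → (N : ℝ) ^ ζ / 2 ≤ q)).card

/-- the even number `N` has the property at all scales from `N ^ θ` on -/
def AllScales (r : ℕ) (ζ δ θ : ℝ) (N : ℕ) : Prop :=
  ∀ x : ℝ, (N : ℝ) ^ θ ≤ x → x ≤ N / 2 → δ * sing N * (x / Real.log N ^ 2) ≤ (inWindow r ζ x N : ℝ)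

/-- the admissible parameters: number of prime factors, level, sifting level -/
def Par (r : ℕ) (τ ζ : ℝ) : Prop :=
  (r = 3 ∧ 1 / 2 ≤ τ ∧ ζ = 2 / 5 * τ) ∨ (r = 2 ∧ 6 / 11 ≤ τ ∧ ζ = τ / 4)

open Classical in
/-- few exceptions -/
lemma few (r : ℕ) (θ τ ζ ε : ℝ) (hpar : Par r τ ζ) (hτ : τ < 1) (hθ0 : 0 < θ) (hθ1 : θ ≤ 1) (hε : 0 < ε) :
    ∃ δ C : ℝ, 0 < δ ∧ 0 < C ∧ ∀ X : ℕ, 1 ≤ X →
      (((Icc 1 X).filter (fun N : ℕ => Even N ∧ ¬ AllScales r ζ δ θ N)).card : ℝ) ≤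
      C * (X : ℝ) ^ (2 * τ - θ + ε) := by
  obtain ⟨δ, C, hδ, hC, h⟩ := Pool.Agent.Y882.GX.everyScale r θ τ ζ ε hpar hτ hθ0 hθ1 hε
  refine ⟨δ, C, hδ, hC, fun X hX => le_trans (Nat.cast_le.2 (card_le_card ?_)) (h X hX)⟩
  intro N hN
  rw [mem_filter] at hN ⊢
  refine ⟨hN.1, hN.2.1, ?_⟩
  have h1 := hN.2.2
  unfold AllScales at h1
  push Not at h1
  exact h1

/-- the exceptional even numbers -/
def Exc (r : ℕ) (ζ δ θ : ℝ) : Set ℕ := {N : ℕ | Even N ∧ ¬ AllScales r ζ δ θ N}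

open Classical in
lemma count (r : ℕ) (θ τ ζ s : ℝ) (hpar : Par r τ ζ) (hτ : τ < 1) (hθ0 : 0 < θ) (hθ1 : θ ≤ 1) (hs : 2 * τ - θ < s) :
    ∃ δ : ℝ, 0 < δ ∧ ∀ ε : ℝ, 0 < ε → ∃ C : ℝ, ∀ X : ℕ, 1 ≤ X →
      (((Ioc 0 X).filter (fun t => t ∈ Exc r ζ δ θ)).card : ℝ) ≤ C * (X : ℝ) ^ (s + ε) := by
  obtain ⟨δ, C, hδ, hC, h⟩ := few r θ τ ζ (s - (2 * τ - θ)) hpar hτ hθ0 hθ1 (by linarith)
  refine ⟨δ, hδ, fun ε hε => ⟨C, fun X hX => ?_⟩⟩
  have hX1 : (1 : ℝ) ≤ X := by exact_mod_cast hX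
  refine (le_trans (Nat.cast_le.2 (card_le_card ?_)) (h X hX)).trans ?_
  · intro t ht
    rw [mem_filter, mem_Ioc] at ht
    rw [mem_filter, mem_Icc]
    exact ⟨⟨ht.1.1, ht.1.2⟩, ht.2⟩
  · apply mul_le_mul_of_nonneg_left _ hC.le
    apply Real.rpow_le_rpow_of_exponent_le hX1
    linarith

/-- (1) Let `r = 3`, `1 / 2 ≤ τ < 1`, `ζ = 2 τ / 5`, or `r = 2`, `6 / 11 ≤ τ < 1`, `ζ = τ / 4`, and `0 < θ ≤ 1`, `ε > 0`. All even
`N ≤ X` with at most `C X ^ (2 τ - θ + ε)` exceptions satisfy, for ALL real `x` with `N ^ θ ≤ x ≤ N / 2`: there are at least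
`δ sing N x / (log N) ^ 2` primes `p` with `x / 4 < p < x` such that `N - p` has at most `r` prime factors, all of them at least
`N ^ ζ / 2`. (2) If `s > 2 τ - θ`, `s ≥ 0`, there is `δ > 0` such that for all sequences `v ≥ 1` of exponent of convergence at most
`σ ≥ 0` and `0 ≤ η < 1` there is a set `E` of Hausdorff dimension at most `(s + σ) / (1 - η)` such that for each `α > 0` outside
`E` and all but finitely many `n`, ALL even `N` with `|N - α v_n| ≤ v_n ^ η` have this property at ALL scales. (3) The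
sequences `v_n = (n + 1) ^ a` and `v_n = b ^ n` have exponent of convergence at most `1 / a` and `0`. -/
theorem result :
    (∀ (r : ℕ) (θ τ ζ ε : ℝ), Par r τ ζ → τ < 1 → 0 < θ → θ ≤ 1 → 0 < ε →
      ∃ δ C : ℝ, 0 < δ ∧ 0 < C ∧ ∀ X : ℕ, 1 ≤ X →
        (Set.ncard {N : ℕ | 1 ≤ N ∧ N ≤ X ∧ Even N ∧ ¬ AllScales r ζ δ θ N} : ℝ) ≤ C * (X : ℝ) ^ (2 * τ - θ + ε)) ∧
    (∀ (r : ℕ) (θ τ ζ s : ℝ), Par r τ ζ → τ < 1 → 0 < θ → θ ≤ 1 → 2 * τ - θ < s → 0 ≤ s →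
      ∃ δ : ℝ, 0 < δ ∧
      ∀ (v : ℕ → ℝ) (σ η : ℝ), (∀ n, 1 ≤ v n) → 0 ≤ σ → ExpLe v σ → 0 ≤ η → η < 1 →
      ∃ E : Set ℝ, dimH E ≤ ENNReal.ofReal ((s + σ) / (1 - η)) ∧
        ∀ α : ℝ, 0 < α → α ∉ E → ∃ n₀ : ℕ, ∀ n : ℕ, n₀ ≤ n → ∀ N : ℕ, Even N → |(N : ℝ) - α * v n| ≤ (v n) ^ η →
          AllScales r ζ δ θ N) ∧
    (∀ a : ℝ, 0 < a → ExpLe (fun n : ℕ => ((n : ℝ) + 1) ^ a) (1 / a)) ∧
    (∀ b : ℝ, 1 < b → ExpLe (fun n : ℕ => b ^ n) 0) := by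
  classical
  refine ⟨fun r θ τ ζ ε hpar hτ hθ0 hθ1 hε => ?_, fun r θ τ ζ s hpar hτ hθ0 hθ1 hs hs0 => ?_,
    fun κ hκ => Pool.Agent.Y854.GM.expLe_pow κ hκ, fun b hb => Pool.Agent.Y854.GM.expLe_geom b hb⟩
  · obtain ⟨δ, C, hδ, hC, h⟩ := few r θ τ ζ ε hpar hτ hθ0 hθ1 hε
    refine ⟨δ, C, hδ, hC, fun X hX => le_trans (le_of_eq ?_) (h X hX)⟩
    rw [← Set.ncard_coe_finset]
    congr 2
    ext N
    simp only [coe_filter, mem_Icc, Set.mem_ofPred_eq]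
    tauto
  · obtain ⟨δ, hδ, hcount⟩ := count r θ τ ζ s hpar hτ hθ0 hθ1 hs
    refine ⟨δ, hδ, fun v σ η hv hσ hE hη hη1 => ?_⟩
    obtain ⟨E, h2, h3⟩ := Pool.Agent.Y854.GM.win_nat (Exc r ζ δ θ) hv hσ hE (s := s) hs0 hη1 hcount
    refine ⟨E, h2, fun α hα hαE => ?_⟩
    obtain ⟨n₀, hn⟩ := h3 α hα hαE
    refine ⟨n₀, fun n hn1 N hN hw => ?_⟩
    by_contra hcon
    exact (hn n hn1 N hw).2 ⟨hN, hcon⟩

end Pool.Agent.Results.MP_bae66e_nt.AllScalesAlmostPrimes
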