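import Pool.Agent.Results.MP_bae66e_nt.ThinFamilySmallPrimes
import Pool.Agent.Q319.DR.Fam

/-!
# Small primes in the Goldbach representations of all even numbers at the multiples of almost all real numbers

* For `0 < θ < 1` there is `κ₀ > 0` such that for all real `y ∈ [N ^ (1 - θ), 2 N ^ (1 - θ)]` outside a set of measure
  at most `N ^ (1 - θ - κ₀)` ALL even integers `m` in the windows of radius `log ^ A₀ N` around the multiples `k y`,
  `k ≤ N ^ θ`, with at most `N ^ θ / log ^ U N` exceptional `k`, are good.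
* For almost every real `α > 0` ALL even integers `m` in the windows of radius `log ^ A₀ (b k)` around the numbers
  `α b k` are good, for ALL large `k`; here `b` is an arbitrary sequence of integers with `b k ≥ exp (k ^ δ)`, for
  instance `b k = 2 ^ k`.

From Mathlib: `n.primeFactors`: the set of the prime divisors of `n`; `volume`: the Lebesgue measure; `∀ᵐ α : ℝ`: for
almost all real `α`; `∀ᶠ k in atTop`: for all large `k`. The theorem about almost all even numbers is from the starting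
files (`Pool.Agent.Results.MP_bae66e_nt.ThinFamilySmallPrimes.first`), as well as the count of the elements of arbitrary
sets of integers in intervals at multiples of real numbers (`Pool.Agent.H438R2.DL`).
-/

set_option autoImplicit false

namespace Pool.Agent.Results.MP_bae66e_nt.EvensAtRealMultiples

open Finset MeasureTheory Filter

/-- The twin prime constant `C₂ = ∏_{p > 2} (1 - 1 / (p - 1) ^ 2)`: the infimum of the decreasing partial products
over the primes `3 ≤ p ≤ z`. -/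
noncomputable def C₂ : ℝ := ⨅ z : ℕ, ∏ p ∈ (Icc 3 z).filter Nat.Prime, (1 - 1 / ((p : ℝ) - 1) ^ 2)

/-- The singular series `2 C₂ ∏_{p ∣ m, p > 2} (p - 1) / (p - 2)`. -/
noncomputable def sing (m : ℕ) : ℝ :=
  2 * C₂ * ∏ p ∈ m.primeFactors.filter (fun p => 2 < p), ((p : ℝ) - 1) / ((p : ℝ) - 2)

/-- The number of primes `p` with `y₁ < p ≤ y₂` such that `m - p` is a prime. -/
def R (m y₁ y₂ : ℕ) : ℕ := ((Ioc y₁ y₂).filter (fun p => p.Prime ∧ (m - p).Prime)).card

/-- The even number `m` is good: (1) there is a prime `p ≤ m / log ^ A m` such that `m - p` is a prime (thus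
`g(m) ≤ m / log ^ A m` in the notation of the problem); (2) in every window `(y₁, y₂]` of a length of at least
`m / log ^ A m` with `0 ≤ y₁ < y₂ ≤ m / log m` the number of primes `p` such that `m - p` is a prime agrees with
`sing m * (y₂ - y₁) / log ^ 2 m` up to a relative error of at most `ε`. -/
def Good (ε : ℝ) (A m : ℕ) : Prop :=
  (∃ p : ℕ, p.Prime ∧ (m - p).Prime ∧ (p : ℝ) ≤ m / Real.log m ^ A) ∧
  ∀ y₁ y₂ : ℕ, y₁ < y₂ → (y₂ : ℝ) ≤ m / Real.log m → (m : ℝ) / Real.log m ^ A ≤ (y₂ : ℝ) - y₁ →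
    |(R m y₁ y₂ : ℝ) - sing m * ((y₂ : ℝ) - y₁) / Real.log m ^ 2| ≤ ε * (sing m * ((y₂ : ℝ) - y₁) / Real.log m ^ 2)

open Classical in
/-- The number of the `k` with `1 ≤ k ≤ x` for which not all even integers `m > 0` at a distance of at most `w` from
`k y` have the property `P`. -/
noncomputable def exceptions (x y w : ℝ) (P : ℕ → Prop) : ℕ :=
  ((Icc 1 ⌊x⌋₊).filter (fun k : ℕ => ∃ m : ℕ, 0 < m ∧ Even m ∧ |(m : ℝ) - k * y| ≤ w ∧ ¬ P m)).card

lemma good_iff (ε : ℝ) (A m : ℕ) :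
    Good ε A m ↔ Pool.Agent.Results.MP_bae66e_nt.ThinFamilySmallPrimes.Holds ε A m := Iff.rfl

lemma sparse (ε : ℝ) (hε : 0 < ε) (A : ℕ) :
    Pool.Agent.Q319.DR.Sparse (fun _ m => 0 < m ∧ Even m ∧ ¬ Good ε A m) := by
  classical
  apply Pool.Agent.Q319.DR.sparse_own
  intro U
  obtain ⟨N₀, h0⟩ := Pool.Agent.Results.MP_bae66e_nt.ThinFamilySmallPrimes.first 1 A 1 0 U le_rfl ε hε
  refine ⟨N₀, fun N hN S hS hSb => ?_⟩
  have h1 := h0 N hN (Fin N) (Pool.Agent.Q319.DR.idf N) (fun i => by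
    rw [Nat.cast_one, one_mul]
    exact (le_abs_self _).trans (Pool.Agent.Q319.DR.idf_abs N i)) (by
    have h2 : Pool.Agent.Results.MP_bae66e_nt.ThinFamilySmallPrimes.energy 1 (Pool.Agent.Q319.DR.idf N) = N :=
      Pool.Agent.Q319.DR.energy_idf N
    rw [h2, Fintype.card_fin, pow_zero, one_mul]
    apply le_of_eq
    ring)
  rw [Fintype.card_fin] at h1
  refine le_trans ?_ h1
  unfold Pool.Agent.Results.MP_bae66e_nt.ThinFamilySmallPrimes.exceptions
  apply Nat.cast_le.2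
  refine (Pool.Agent.Q319.DR.set_of_fam N (fun a => 0 < a ∧ Even a ∧
    ¬ Pool.Agent.Results.MP_bae66e_nt.ThinFamilySmallPrimes.Holds ε A a.toNat) S hS ?_)
  intro q hq
  obtain ⟨_, h3, h4, h5⟩ := hSb q hq
  refine ⟨by exact_mod_cast h3, by exact_mod_cast h4, ?_⟩
  rw [Int.toNat_natCast, ← good_iff]
  exact h5

/-- * Let `0 < θ < 1`. There is `κ₀ > 0` such that for all `A₀`, `A`, `U`, `ε > 0` and all large `N` there is a set `E`
  of real numbers of measure at most `N ^ (1 - θ - κ₀)` with the following property. Let `y` be a real number with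
  `N ^ (1 - θ) ≤ y ≤ 2 N ^ (1 - θ)` which does not belong to `E`. For all `k ≤ N ^ θ`, with at most
  `N ^ θ / log ^ U N` exceptions, ALL even integers `m > 0` with `|m - k y| ≤ log ^ A₀ N` satisfy: there is a prime
  `p ≤ m / log ^ A m` such that `m - p` is a prime, and in all windows of length at least `m / log ^ A m` in
  `(0, m / log m]` the number of such primes is as predicted by Hardy and Littlewood, up to a relative error of at
  most `ε`.
* Let `b` be a sequence of natural numbers with `b k ≥ exp (k ^ δ)` for all large `k`, where `δ > 0`. For almost every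
  real number `α > 0` the following holds for all `A₀`, `A` and `n`: for all large `k` ALL even integers `m > 0` with
  `|m - α b k| ≤ log ^ A₀ (b k)` have the same property with `ε = 1 / (n + 1)`. -/
theorem result :
    (∀ θ : ℝ, 0 < θ → θ < 1 → ∃ κ₀ : ℝ, 0 < κ₀ ∧ ∀ (A₀ A U : ℕ) (ε : ℝ), 0 < ε → ∃ N₀ : ℕ, ∀ N : ℕ, N₀ ≤ N →
      ∃ E : Set ℝ, MeasurableSet E ∧ volume E ≤ ENNReal.ofReal ((N : ℝ) ^ (1 - θ - κ₀)) ∧
        ∀ y : ℝ, (N : ℝ) ^ (1 - θ) ≤ y → y ≤ 2 * (N : ℝ) ^ (1 - θ) → y ∉ E →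
          (exceptions ((N : ℝ) ^ θ) y (Real.log N ^ A₀) (Good ε A) : ℝ) ≤ (N : ℝ) ^ θ / Real.log N ^ U) ∧
    (∀ (b : ℕ → ℕ) (δ : ℝ), 0 < δ → (∀ᶠ k : ℕ in atTop, Real.exp ((k : ℝ) ^ δ) ≤ b k) →
      ∀ᵐ α : ℝ, 0 < α → ∀ A₀ A n : ℕ, ∀ᶠ k : ℕ in atTop,
        ∀ m : ℕ, 0 < m → Even m → |(m : ℝ) - α * b k| ≤ Real.log (b k) ^ A₀ → Good (1 / ((n : ℝ) + 1)) A m) := by
  classical
  constructor
  · intro θ hθ hθ1
    obtain ⟨κ₀, hκ₀, h⟩ := Pool.Agent.Q319.DR.mult_few θ hθ hθ1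
    refine ⟨κ₀, hκ₀, fun A₀ A U ε hε => ?_⟩
    obtain ⟨N₀, h0⟩ := h _ (sparse ε hε A) A₀ U
    refine ⟨N₀, fun N hN => ?_⟩
    obtain ⟨E, hE1, hE2, hE3⟩ := h0 N hN
    refine ⟨E, hE1, hE2, fun y hy1 hy2 hyE => le_trans ?_ (hE3 y hy1 hy2 hyE)⟩
    unfold exceptions
    apply Nat.cast_le.2
    apply card_le_card
    intro k hk
    rw [mem_filter] at hk ⊢
    obtain ⟨hk1, m, hm0, hm1, hm2, hm3⟩ := hk
    exact ⟨hk1, m, hm2, hm0, hm1, hm3⟩
  · intro b δ hδ hb
    have h1 : ∀ᵐ α : ℝ, ∀ A : ℕ, 0 < α → ∀ A₀ n : ℕ, ∀ᶠ k : ℕ in atTop,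
        ∀ m : ℕ, |(m : ℝ) - α * b k| ≤ Real.log (b k) ^ A₀ → ¬ (0 < m ∧ Even m ∧ ¬ Good (1 / ((n : ℝ) + 1)) A m) := by
      rw [ae_all_iff]
      intro A
      exact Pool.Agent.Q319.DR.lac_all_count (fun n _ m => 0 < m ∧ Even m ∧ ¬ Good (1 / ((n : ℝ) + 1)) A m) (fun n =>
        sparse (1 / ((n : ℝ) + 1)) (by positivity) A) b δ hδ hb
    filter_upwards [h1] with α hα hα0 A₀ A n
    filter_upwards [hα A hα0 A₀ n] with k hk m hm0 hm1 hm2
    by_contra hcon
    exact hk m hm2 ⟨hm0, hm1, hcon⟩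

end Pool.Agent.Results.MP_bae66e_nt.EvensAtRealMultiples
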