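import Pool.Agent.Results.MP_bae66e_nt.ThinFamilySmallPrimes
import Pool.Agent.Q56.TF.Typ
import Pool.Agent.Q56.TF.Ord

/-!
# Small prime summands in Goldbach representations of all even numbers near almost all members of a real sequence

The even numbers `m` are arbitrary with `|m - r j| ≤ log ^ A₀ N`, for almost all `j ≤ x`, where
`r 1, ..., r x` is an arbitrary family of real numbers of nearly minimal energy; for instance the (real) values
`β + κ f j` of a polynomial `f` with integer coefficients, with arbitrary real `κ ≠ 0` and `β`, or of a generalised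
polynomial `f t = ∑ w_y t ^ y` whose largest exponent is greater than `1` and not an integer (`f t = t ^ c`: the
sequences of Piatetski-Shapiro).

From Mathlib: `n.primeFactors`: the set of the prime divisors of `n`; `Polynomial ℤ`, `f.eval m`: polynomials and
their values. The estimate for families of integers is from the starting files
(`Pool.Agent.Results.MP_bae66e_nt.ThinFamilySmallPrimes.first`).
-/

set_option autoImplicit false

namespace Pool.Agent.Results.MP_bae66e_nt.EvensNearRealSequences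

open Finset

open Classical in
/-- The energy of order `p` of the family of real numbers `r 1, ..., r x`: the number of the pairs `v`, `w` of
`p`-tuples of elements of `{1, ..., x}` such that `r (v 1) + ... + r (v p)` and `r (w 1) + ... + r (w p)` differ
by at most `1`. -/
noncomputable def energy (p x : ℕ) (r : ℕ → ℝ) : ℕ :=
  (((Fintype.piFinset fun _ : Fin p => Icc 1 x) ×ˢ (Fintype.piFinset fun _ : Fin p => Icc 1 x)).filter
    (fun q => |∑ i, r (q.1 i) - ∑ i, r (q.2 i)| ≤ 1)).card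

/-- The twin prime constant `C₂ = ∏_{p > 2} (1 - 1 / (p - 1) ^ 2)`: the infimum of the decreasing partial products
over the primes `3 ≤ p ≤ z`. -/
noncomputable def C₂ : ℝ := ⨅ z : ℕ, ∏ p ∈ (Icc 3 z).filter Nat.Prime, (1 - 1 / ((p : ℝ) - 1) ^ 2)

/-- The singular series `2 C₂ ∏_{p ∣ m, p > 2} (p - 1) / (p - 2)`. -/
noncomputable def sing (m : ℕ) : ℝ :=
  2 * C₂ * ∏ p ∈ m.primeFactors.filter (fun p => 2 < p), ((p : ℝ) - 1) / ((p : ℝ) - 2)

/-- The number of primes `p` with `y₁ < p ≤ y₂` such that `m - p` is a prime. -/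
def R (m y₁ y₂ : ℕ) : ℕ := ((Ioc y₁ y₂).filter (fun p => p.Prime ∧ (m - p).Prime)).card

/-- The even number `m` is good: (1) there is a prime `p ≤ m / log ^ A m` such that `m - p` is a prime (thus
`g(m) ≤ m / log ^ A m` in the notation of the problem); (2) in every window `(y₁, y₂]` of a length of at least
`m / log ^ A m` with `0 ≤ y₁ < y₂ ≤ m / log m` the number of primes `p` such that `m - p` is a prime agrees with
`sing m * (y₂ - y₁) / log ^ 2 m` up to a relative error of at most `ε`. -/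
def Good (ε : ℝ) (A m : ℕ) : Prop :=
  (∃ p : ℕ, p.Prime ∧ (m - p).Prime ∧ (p : ℝ) ≤ m / Real.log m ^ A) ∧
  ∀ y₁ y₂ : ℕ, y₁ < y₂ → (y₂ : ℝ) ≤ m / Real.log m → (m : ℝ) / Real.log m ^ A ≤ (y₂ : ℝ) - y₁ →
    |(R m y₁ y₂ : ℝ) - sing m * ((y₂ : ℝ) - y₁) / Real.log m ^ 2| ≤ ε * (sing m * ((y₂ : ℝ) - y₁) / Real.log m ^ 2)

open Classical in
/-- The number of the `j` in `{1, ..., x}` for which not all even integers `m > 0` at a distance of at most `w` from
`r j` have the property `G`. -/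
noncomputable def exceptions (x : ℕ) (r : ℕ → ℝ) (w : ℝ) (G : ℕ → Prop) : ℕ :=
  ((Icc 1 x).filter (fun j => ∃ m : ℕ, 0 < m ∧ Even m ∧ |(m : ℝ) - r j| ≤ w ∧ ¬ G m)).card

/-- The bound at scale `N` for the windows around the `r j`, `j ≤ x`: for all `j ≤ x` with at most `x / log ^ U N`
exceptions all even integers `m > 0` with `|m - r j| ≤ log ^ A₀ N` are good. -/
def Holds (ε : ℝ) (A₀ A U N x : ℕ) (r : ℕ → ℝ) : Prop :=
  (exceptions x r (Real.log N ^ A₀) (Good ε A) : ℝ) ≤ x / Real.log N ^ U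

/-- The sequence `f`, of growth `x ^ e`, has the property at all large scales: for all `x` with
`N / log ^ C N ≤ x ^ e ≤ B N` and all translates `β + f j`, `|β| ≤ B N`. -/
def Sequence (ε : ℝ) (A₀ A B C U : ℕ) (f : ℕ → ℝ) (e : ℝ) : Prop :=
  ∃ N₀ : ℕ, ∀ N : ℕ, N₀ ≤ N → ∀ x : ℕ, (x : ℝ) ^ e ≤ B * N → (N : ℝ) ≤ Real.log N ^ C * (x : ℝ) ^ e →
    ∀ β : ℝ, |β| ≤ B * N → Holds ε A₀ A U N x (fun j => β + f j)

lemma good_iff (ε : ℝ) (A m : ℕ) :
    Good ε A m ↔ Pool.Agent.Results.MP_bae66e_nt.ThinFamilySmallPrimes.Holds ε A m := Iff.rfl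

lemma holds_of (A₀ A B' U p C' : ℕ) (hp : 1 ≤ p) (ε : ℝ) (hε : 0 < ε) :
    ∃ N₀ : ℕ, ∀ N : ℕ, N₀ ≤ N → ∀ (x : ℕ) (r : ℕ → ℝ), Pool.Agent.Q56.TF.Near A₀ p B' C' N x r →
      Holds ε A₀ A U N x r := by
  classical
  obtain ⟨N₁, h1⟩ := Pool.Agent.Results.MP_bae66e_nt.ThinFamilySmallPrimes.first p A B' C' U hp ε hε
  refine ⟨N₁, fun N hN x r hm => ?_⟩
  refine Pool.Agent.Q56.TF.near_types hm (Q := fun a : ℤ => 0 < a ∧ Even a ∧
    ¬ Pool.Agent.Results.MP_bae66e_nt.ThinFamilySmallPrimes.Holds ε A a.toNat) ?_ _ (filter_subset _ _) ?_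
  · intro ι _ v hv hE S hS
    refine le_trans ?_ (h1 N hN ι v (fun i => (le_abs_self _).trans (hv i)) hE)
    unfold Pool.Agent.Results.MP_bae66e_nt.ThinFamilySmallPrimes.exceptions
    apply Nat.cast_le.2
    apply card_le_card
    intro i hi
    exact mem_filter.2 ⟨mem_univ _, hS i hi⟩
  · intro j hj
    obtain ⟨_, m, hm0, hm1, hm2, hm3⟩ := mem_filter.1 hj
    exact ⟨(m : ℤ), by exact_mod_cast hm2, by exact_mod_cast hm0, by exact_mod_cast hm1,
      by rw [Int.toNat_natCast, ← good_iff]; exact hm3⟩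

lemma sequence_of {f : ℕ → ℝ} {e : ℝ} (h : Pool.Agent.Q56.TF.Base f e) (he : 1 ≤ e) (A₀ A B C U : ℕ) (ε : ℝ)
    (hε : 0 < ε) : Sequence ε A₀ A B C U f e := by
  obtain ⟨p, B', C', N₀, h1⟩ := Pool.Agent.Q56.TF.near_base h he A₀ B C
  obtain ⟨N₁, h2⟩ := holds_of A₀ A B' U (p + 1) C' (by omega) ε hε
  exact ⟨N₀ + N₁, fun N hN x hx1 hx2 β hβ => h2 N (by omega) x _ ((h1 N (by omega) x hx1 hx2 β hβ).order (by omega))⟩

/-- Let `A₀`, `A`, `B`, `C`, `U` and `ε > 0` be fixed.

* For every `p` the following holds for all large `N`. Let `r 1, ..., r x` be an arbitrary family of real numbers in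
  `[-B N, B N]` with an energy of order `p` of at most `log ^ C N` times `x ^ (2 p) / N` (the minimal possible order
  of magnitude). For all `j ≤ x` with at most `x / log ^ U N` exceptions, ALL even integers `m > 0` with
  `|m - r j| ≤ log ^ A₀ N` satisfy: there is a prime `p ≤ m / log ^ A m` such that `m - p` is a prime, and in all windows
  of length at least `m / log ^ A m` in `(0, m / log m]` the number of such primes is as predicted by Hardy and
  Littlewood, up to a relative error of at most `ε`.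
* This holds for `r j = β + κ f j`, `j ≤ x`, where `f` is a fixed nonconstant polynomial with integer
  coefficients, of degree `d`, `κ ≠ 0` is a fixed real number, `β` is any real number with `|β| ≤ B N`, and
  `N / log ^ C N ≤ x ^ d ≤ B N`.
* This holds for `r j = β + ∑ w_y j ^ y` (a sum over a finite set `F` of real exponents `y`), if the largest
  exponent `e` is greater than `1` and not an integer, `w_e ≠ 0`, `|β| ≤ B N` and `N / log ^ C N ≤ x ^ e ≤ B N`; for
  instance for `r j = β + j ^ e`. -/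
theorem result (A₀ A B C U : ℕ) (ε : ℝ) (hε : 0 < ε) :
    (∀ p : ℕ, ∃ N₀ : ℕ, ∀ N : ℕ, N₀ ≤ N → ∀ (x : ℕ) (r : ℕ → ℝ), (∀ m ∈ Icc 1 x, |r m| ≤ B * N) →
      (energy p x r : ℝ) * N ≤ Real.log N ^ C * (x : ℝ) ^ (2 * p) → Holds ε A₀ A U N x r) ∧
    (∀ f : Polynomial ℤ, 1 ≤ f.natDegree → ∀ κ : ℝ, κ ≠ 0 →
      Sequence ε A₀ A B C U (fun m => κ * ((f.eval (m : ℤ) : ℤ) : ℝ)) f.natDegree) ∧
    (∀ (F : Finset ℝ) (w : ℝ → ℝ) (e : ℝ), e ∈ F → (∀ y ∈ F, y ≤ e) → w e ≠ 0 → 1 < e → (∀ k : ℕ, e ≠ k) →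
      Sequence ε A₀ A B C U (fun m => ∑ y ∈ F, w y * (m : ℝ) ^ y) e) := by
  classical
  refine ⟨fun p => ?_, fun f hd κ hκ => ?_, fun F w e heF hmax hwe he hen => ?_⟩
  · obtain ⟨B', C', N₀, h1⟩ := Pool.Agent.Q56.TF.near_gen p A₀ B C
    obtain ⟨N₁, h2⟩ := holds_of A₀ A B' U (p + 1) C' (by omega) ε hε
    exact ⟨N₀ + N₁, fun N hN x r hr hE => h2 N (by omega) x _ ((h1 N (by omega) x r hr hE).order (by omega))⟩
  · exact sequence_of ((Pool.Agent.Q56.TF.base_poly f hd).dil hκ) (by exact_mod_cast hd) A₀ A B C U ε hε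
  · exact sequence_of (Pool.Agent.Q56.TF.base_gp F w e heF hmax hwe he hen) he.le A₀ A B C U ε hε

end Pool.Agent.Results.MP_bae66e_nt.EvensNearRealSequences
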