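import Pool.Agent.Q55.Rom2

/-!
# The least prime in Goldbach representations of typical even numbers: the threshold `log m log log m`

For `g(m)`, the least prime `p` such that `m - p` is a prime: (1) for every `ε > 0` there is `c > 0` such that in every
interval of a large length `X` at most the proportion `ε` of the even numbers `m` have `g(m) ≤ c log X log log X`;
(2) for every `δ > 0` a positive proportion of the even numbers `m` has `g(m) ≤ δ log m log log m`; (3) for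
representations `m = p + q` with `q` in an arbitrary set of primes up to `x` of positive relative density and `p` in an
arbitrary set of primes up to `δ log x log log x` of positive relative density there still is a positive proportion.
-/

set_option autoImplicit false

open Finset Filter

namespace Pool.Agent.Results.MP_bae66e_nt.TypicalOrder

/-- `g(m) ≤ y`: there is a prime `p ≤ y` such that `m - p` is a prime -/
def LeastPrimeLe (m : ℕ) (y : ℝ) : Prop := ∃ p q : ℕ, p.Prime ∧ q.Prime ∧ p + q = m ∧ (p : ℝ) ≤ y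

open Classical in
/-- the `n` in `[1, x]` such that `2 n = q + p` for some `q` in `Q` and some `p` in `P` -/
noncomputable def sums (Q P : Finset ℕ) (x : ℕ) : Finset ℕ :=
  (Icc 1 x).filter (fun n => ∃ q ∈ Q, ∃ p ∈ P, q + p = 2 * n)

lemma sums_eq (Q P : Finset ℕ) (x : ℕ) : sums Q P x = Pool.Agent.Q55.Rom.RP Q P x := rfl

theorem positive (δ : ℝ) (hδ : 0 < δ) : ∃ c : ℝ, 0 < c ∧ ∀ᶠ x : ℕ in atTop,
    c * x ≤ (Set.ncard {n : ℕ | 1 ≤ n ∧ n ≤ x ∧
      LeastPrimeLe (2 * n) (δ * (Real.log n * Real.log (Real.log n)))} : ℝ) := by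
  classical
  obtain ⟨c, hc, h⟩ := Pool.Agent.Q55.Rom.primes_small (1 / 2) (δ / 32) (δ / 4) (by norm_num)
    (by positivity) (by positivity)
  have hlogt : Tendsto (fun x : ℕ => Real.log (x : ℝ)) atTop atTop :=
    Real.tendsto_log_atTop.comp tendsto_natCast_atTop_atTop
  obtain ⟨M0, hM0⟩ := eventually_atTop.1 Pool.Agent.H197R2.PG.QQ_card
  refine ⟨c / 2, by positivity, ?_⟩
  filter_upwards [h, Pool.Agent.H197R2.PG.QQ_card,
    hlogt.eventually (Pool.Agent.TH685.FAvg.ev_L (δ / 4) M0 (by positivity)),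
    hlogt.eventually_ge_atTop (max 16 (2 * Real.log (2 / c))), eventually_ge_atTop 3] with x h1 h2 h3 h4 hx3
  obtain ⟨-, hL16, hL2, hLsq, hLs, hK⟩ := h3
  have hx0 : (0 : ℝ) < x := by exact_mod_cast (by omega : 0 < x)
  obtain ⟨L, hLd⟩ : ∃ L : ℝ, L = Real.log x := ⟨_, rfl⟩
  rw [← hLd] at h1 h2 h4 hL16 hL2 hLsq hLs hK
  have hLc : 2 * Real.log (2 / c) ≤ L := (le_max_right _ _).trans h4
  have hl1 : 1 ≤ Real.log L := by
    rw [Real.le_log_iff_exp_le (by linarith)]
    have := Real.exp_one_lt_d9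
    linarith
  obtain ⟨W, hW⟩ : ∃ W : ℝ, W = δ / 4 * (L * Real.log L) := ⟨_, rfl⟩
  rw [← hW] at h1 hL2 hLsq hLs hK
  obtain ⟨M, hM⟩ : ∃ M : ℕ, M = ⌊W⌋₊ := ⟨_, rfl⟩
  have hMle : (M : ℝ) ≤ W := by rw [hM]; exact Nat.floor_le (by linarith)
  have hM2 : 2 ≤ M := by rw [hM]; exact Nat.le_floor (by exact_mod_cast hL2)
  have hMr : (2 : ℝ) ≤ M := by exact_mod_cast hM2
  have hMge : W - 1 ≤ M := by
    have := Nat.lt_floor_add_one W
    rw [← hM] at this
    linarith
  have hMhalf : W / 2 ≤ M := by linarith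
  have hlM1 : Real.log M ≤ 2 * Real.log L := by
    have h5 : (M : ℝ) ≤ L ^ 2 := hMle.trans hLsq
    have h6 := Real.log_le_log (by linarith) h5
    rw [Real.log_pow] at h6
    exact_mod_cast h6
  have hlMpos : 0 < Real.log M := Real.log_pos (by linarith)
  have hMM0 : M0 ≤ M := by
    have : (M0 : ℝ) ≤ M := hK.trans hMhalf
    exact_mod_cast this
  have h5 := hM0 M hMM0
  have h6 : δ / 32 * L ≤ (Pool.Agent.H197R2.PG.QQ M).card := by
    refine le_trans ?_ h5
    rw [le_div_iff₀ (by positivity)]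
    calc δ / 32 * L * (2 * Real.log M) ≤ δ / 32 * L * (2 * (2 * Real.log L)) := by gcongr
      _ = W / 2 := by rw [hW]; ring
      _ ≤ M := hMhalf
  have h7 := h1 (Pool.Agent.H197R2.PG.QQ M) (fun q hq => by
    unfold Pool.Agent.H197R2.PG.QQ at hq
    rw [mem_filter, mem_Ioc] at hq
    refine ⟨hq.2, ?_⟩
    have : (q : ℝ) ≤ M := by exact_mod_cast hq.1.2
    linarith) h6 (Pool.Agent.H197R2.PG.QQ x) (fun p hp => by
    unfold Pool.Agent.H197R2.PG.QQ at hp
    rw [mem_filter, mem_Ioc] at hp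
    exact ⟨hp.2, hp.1.2⟩) (by
    refine le_trans (le_of_eq ?_) h2
    field_simp)
  -- remove the small n
  have h8 : (c / 2 * x : ℝ) ≤ (((Pool.Agent.Q55.Rom.RP (Pool.Agent.H197R2.PG.QQ M)
      (Pool.Agent.H197R2.PG.QQ x) x).filter (fun n : ℕ => c / 2 * x ≤ n)).card : ℝ) := by
    have e1 := card_filter_add_card_filter_not (s := Pool.Agent.Q55.Rom.RP (Pool.Agent.H197R2.PG.QQ M)
      (Pool.Agent.H197R2.PG.QQ x) x) (fun n : ℕ => c / 2 * x ≤ n)
    have e2 : (((Pool.Agent.Q55.Rom.RP (Pool.Agent.H197R2.PG.QQ M)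
      (Pool.Agent.H197R2.PG.QQ x) x).filter (fun n : ℕ => ¬ c / 2 * x ≤ n)).card : ℝ) ≤ c / 2 * x := by
      have e3 : (Pool.Agent.Q55.Rom.RP (Pool.Agent.H197R2.PG.QQ M)
        (Pool.Agent.H197R2.PG.QQ x) x).filter (fun n : ℕ => ¬ c / 2 * x ≤ n) ⊆ Icc 1 ⌊c / 2 * x⌋₊ := by
        intro n hn
        rw [mem_filter] at hn
        obtain ⟨hn1, hn2⟩ := hn
        unfold Pool.Agent.Q55.Rom.RP at hn1
        rw [mem_filter, mem_Icc] at hn1
        rw [mem_Icc]
        exact ⟨hn1.1.1, Nat.le_floor (not_le.1 hn2).le⟩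
      have e4 := card_le_card e3
      rw [Nat.card_Icc, Nat.add_sub_cancel] at e4
      calc _ ≤ ((⌊c / 2 * x⌋₊ : ℕ) : ℝ) := by exact_mod_cast e4
        _ ≤ c / 2 * x := Nat.floor_le (by positivity)
    have e5 : (((Pool.Agent.Q55.Rom.RP (Pool.Agent.H197R2.PG.QQ M)
      (Pool.Agent.H197R2.PG.QQ x) x).filter (fun n : ℕ => c / 2 * x ≤ n)).card : ℝ) +
      (((Pool.Agent.Q55.Rom.RP (Pool.Agent.H197R2.PG.QQ M)
      (Pool.Agent.H197R2.PG.QQ x) x).filter (fun n : ℕ => ¬ c / 2 * x ≤ n)).card : ℝ) =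
      ((Pool.Agent.Q55.Rom.RP (Pool.Agent.H197R2.PG.QQ M) (Pool.Agent.H197R2.PG.QQ x) x).card : ℝ) := by
      exact_mod_cast e1
    linarith
  refine h8.trans ?_
  have hfin : {n : ℕ | 1 ≤ n ∧ n ≤ x ∧
      LeastPrimeLe (2 * n) (δ * (Real.log n * Real.log (Real.log n)))}.Finite :=
    (Set.finite_Iic x).subset (fun n hn => hn.2.1)
  have hsub : (((Pool.Agent.Q55.Rom.RP (Pool.Agent.H197R2.PG.QQ M)
      (Pool.Agent.H197R2.PG.QQ x) x).filter (fun n : ℕ => c / 2 * x ≤ n) : Finset ℕ) : Set ℕ) ⊆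
      {n : ℕ | 1 ≤ n ∧ n ≤ x ∧ LeastPrimeLe (2 * n) (δ * (Real.log n * Real.log (Real.log n)))} := by
    intro n hn
    rw [mem_coe, mem_filter] at hn
    obtain ⟨hn1, hn2⟩ := hn
    unfold Pool.Agent.Q55.Rom.RP at hn1
    rw [mem_filter, mem_Icc] at hn1
    obtain ⟨⟨hn3, hn4⟩, q, hq, p, hp, hqp⟩ := hn1
    unfold Pool.Agent.H197R2.PG.QQ at hq hp
    rw [mem_filter, mem_Ioc] at hq hp
    refine ⟨hn3, hn4, q, p, hq.2, hp.2, hqp, ?_⟩
    have g0 : (0 : ℝ) < c / 2 * x := by positivity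
    have g1 : L / 2 ≤ Real.log n := by
      have g2 := Real.log_le_log g0 hn2
      rw [Real.log_mul (by positivity) hx0.ne', ← hLd] at g2
      have g3 : Real.log (c / 2) = - Real.log (2 / c) := by
        rw [← Real.log_inv]
        congr 1
        field_simp
      linarith
    have g4 : Real.log L / 2 ≤ Real.log (Real.log n) := by
      have g5 := Real.log_le_log (by linarith) g1
      rw [Real.log_div (by linarith) (by norm_num)] at g5
      have g6 : Real.log 2 ≤ Real.log L / 2 := by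
        have : Real.log 16 ≤ Real.log L := Real.log_le_log (by norm_num) hL16
        have e : Real.log 16 = 4 * Real.log 2 := by
          rw [show (16 : ℝ) = 2 ^ 4 by norm_num, Real.log_pow]
          norm_num
        have : 0 < Real.log 2 := Real.log_pos (by norm_num)
        linarith
      linarith
    have g7 : (q : ℝ) ≤ M := by exact_mod_cast hq.1.2
    calc (q : ℝ) ≤ W := g7.trans hMle
      _ = δ * ((L / 2) * (Real.log L / 2)) := by rw [hW]; ring
      _ ≤ δ * (Real.log n * Real.log (Real.log n)) := by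
        apply mul_le_mul_of_nonneg_left _ hδ.le
        exact mul_le_mul g1 g4 (by linarith) (by linarith)
  have h9 := Set.ncard_le_ncard hsub hfin
  rw [Set.ncard_coe_finset] at h9
  exact_mod_cast h9

/-- **Theorem.** (1) For every `ε > 0` there is `c > 0` such that for all large `X` and all `Y` at most `ε X` of the `n`
in `(Y, Y + X]` satisfy `g(2 n) ≤ c log X log log X`.
(2) For every `δ > 0` there is `c > 0` such that for all large `x` at least `c x` of the `n ≤ x` satisfy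
`g(2 n) ≤ δ log n log log n`.
(3) For all `α, β, δ > 0` there is `c > 0` such that for all large `x`, ALL sets `Q` of at least `β log x` primes up to
`δ log x log log x` and ALL sets `P` of at least `α x / log x` primes up to `x`, at least `c x` of the even numbers up to
`2 x` are sums of an element of `Q` and an element of `P`. -/
theorem result :
    (∀ ε : ℝ, 0 < ε → ∃ c : ℝ, 0 < c ∧ ∀ᶠ X : ℕ in atTop, ∀ Y : ℕ,
      (Set.ncard {n : ℕ | Y < n ∧ n ≤ Y + X ∧
        LeastPrimeLe (2 * n) (c * (Real.log X * Real.log (Real.log X)))} : ℝ) ≤ ε * X) ∧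
    (∀ δ : ℝ, 0 < δ → ∃ c : ℝ, 0 < c ∧ ∀ᶠ x : ℕ in atTop,
      c * x ≤ (Set.ncard {n : ℕ | 1 ≤ n ∧ n ≤ x ∧
        LeastPrimeLe (2 * n) (δ * (Real.log n * Real.log (Real.log n)))} : ℝ)) ∧
    ∀ α β δ : ℝ, 0 < α → 0 < β → 0 < δ → ∃ c : ℝ, 0 < c ∧ ∀ᶠ x : ℕ in atTop,
      ∀ Q : Finset ℕ, (∀ q ∈ Q, q.Prime ∧ (q : ℝ) ≤ δ * (Real.log x * Real.log (Real.log x))) →
      β * Real.log x ≤ Q.card →
      ∀ P : Finset ℕ, (∀ p ∈ P, p.Prime ∧ p ≤ x) → α * (x / Real.log x) ≤ P.card →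
        c * x ≤ (sums Q P x).card := by
  refine ⟨fun ε hε => ?_, positive, fun α β δ hα hβ hδ => ?_⟩
  · obtain ⟨c, hc, h⟩ := Pool.Agent.Q55.Rom.few_small ε hε
    refine ⟨c, hc, ?_⟩
    filter_upwards [h] with X hX Y
    refine le_trans (le_of_eq ?_) (hX Y)
    congr 2
    ext n
    constructor
    · rintro ⟨h1, h2, p, q, hp, hq, hpq, hpy⟩
      exact ⟨h1, h2, p, q, hp, hq, by omega, hpy⟩
    · rintro ⟨h1, h2, p, q, hp, hq, hpq, hpy⟩
      exact ⟨h1, h2, p, q, hp, hq, by omega, hpy⟩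
  · obtain ⟨c, hc, h⟩ := Pool.Agent.Q55.Rom.primes_small α β δ hα hβ hδ
    exact ⟨c, hc, h⟩

end Pool.Agent.Results.MP_bae66e_nt.TypicalOrder
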